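import Mathlib

namespace Pool.Agent.Results.MP_d2a7e5_an.NotCM

open Set Filter Topology
open scoped ContDiff

/-- The digamma function `ψ = Γ' / Γ`. -/
noncomputable def psi (x : ℝ) : ℝ := deriv Real.Gamma x / Real.Gamma x

/-- The approximation `𝓛(x, a)`. -/
noncomputable def L (x a : ℝ) : ℝ :=
  1 / (90 * a ^ 2 + 2) * Real.log (x ^ 2 + x + (3 * a + 1) / 3) +
    45 * a ^ 2 / (90 * a ^ 2 + 2) * Real.log (x ^ 2 + x + (15 * a - 1) / (45 * a))

/-- The constant `a₁`. -/
noncomputable def a₁ : ℝ := (40 + 3 * √205) / 105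

/-- Complete monotonicity on `(-1, ∞)`. -/
def CompletelyMonotonic (f : ℝ → ℝ) : Prop :=
  ContDiffOn ℝ ∞ f (Ioi (-1)) ∧ ∀ (n : ℕ) (x : ℝ), -1 < x → 0 ≤ (-1) ^ n * iteratedDeriv n f x

theorem psi_succ (x : ℝ) (hx : 0 < x) : psi (x + 1) = psi x + 1 / x := by
  have d : ∀ y : ℝ, 0 < y → DifferentiableAt ℝ Real.Gamma y := fun y hy =>
    Real.differentiableAt_Gamma fun m h => by
      have : (0 : ℝ) ≤ m := m.cast_nonneg
      linarith
  have h1 : HasDerivAt (fun y => Real.Gamma (y + 1)) (deriv Real.Gamma (x + 1)) x :=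
    (d _ (by linarith)).hasDerivAt.comp_add_const x 1
  have h2 : HasDerivAt (fun y => y * Real.Gamma y) (1 * Real.Gamma x + x * deriv Real.Gamma x) x :=
    (hasDerivAt_id x).mul (d x hx).hasDerivAt
  have h3 := h1.unique (h2.congr_of_eventuallyEq (by
    filter_upwards [lt_mem_nhds hx] with y hy using Real.Gamma_add_one hy.ne'))
  have := (Real.Gamma_pos_of_pos hx).ne'
  rw [psi, psi, h3, Real.Gamma_add_one hx.ne']
  field_simp
  ring

/-- The derivatives of `log (y² + b)`. -/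
noncomputable def ph (b : ℝ) : ℕ → ℝ → ℝ
  | 0, y => Real.log (y ^ 2 + b)
  | 1, y => 2 * y / (y ^ 2 + b)
  | 2, y => 2 * (b - y ^ 2) / (y ^ 2 + b) ^ 2
  | 3, y => 2 * (2 * y ^ 3 - 6 * b * y) / (y ^ 2 + b) ^ 3
  | _, y => 2 * (-6 * y ^ 4 + 36 * b * y ^ 2 - 6 * b ^ 2) / (y ^ 2 + b) ^ 4

/-- The derivatives of `1 / y`. -/
noncomputable def iv : ℕ → ℝ → ℝ
  | 0, y => 1 / y
  | 1, y => -1 / y ^ 2
  | 2, y => 2 / y ^ 3
  | 3, y => -6 / y ^ 4
  | _, y => 24 / y ^ 5

theorem ph_der (b y : ℝ) (hb : 0 < b) (k : ℕ) (hk : k < 4) :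
    HasDerivAt (ph b k) (ph b (k + 1) y) y := by
  have h0 : y ^ 2 + b ≠ 0 := by positivity
  have i := hasDerivAt_id' y
  have h : HasDerivAt (fun y : ℝ => y ^ 2 + b) (2 * y) y := by
    simpa using (i.fun_pow 2).add_const b
  interval_cases k
  · exact h.log h0
  · refine HasDerivAt.congr_deriv ((i.const_mul 2).fun_div h h0) ?_
    simp only [ph]; field_simp; ring
  · refine HasDerivAt.congr_deriv ((((i.fun_pow 2).const_sub b).const_mul 2).fun_div (h.fun_pow 2) (pow_ne_zero 2 h0)) ?_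
    simp only [ph]; field_simp; ring
  · refine HasDerivAt.congr_deriv (((((i.fun_pow 3).const_mul 2).fun_sub (i.const_mul (6 * b))).const_mul 2).fun_div
      (h.fun_pow 3) (pow_ne_zero 3 h0)) ?_
    simp only [ph]; field_simp; ring

theorem iv_der (y : ℝ) (h0 : y ≠ 0) (k : ℕ) (hk : k < 4) :
    HasDerivAt (iv k) (iv (k + 1) y) y := by
  have i := hasDerivAt_id' y
  interval_cases k
  · refine HasDerivAt.congr_deriv ((hasDerivAt_const y (1 : ℝ)).fun_div i h0) ?_
    simp only [iv]; field_simp; ring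
  · refine HasDerivAt.congr_deriv ((hasDerivAt_const y (-1 : ℝ)).fun_div (i.fun_pow 2) (pow_ne_zero 2 h0)) ?_
    simp only [iv]; field_simp; ring
  · refine HasDerivAt.congr_deriv ((hasDerivAt_const y (2 : ℝ)).fun_div (i.fun_pow 3) (pow_ne_zero 3 h0)) ?_
    simp only [iv]; field_simp; ring
  · refine HasDerivAt.congr_deriv ((hasDerivAt_const y (-6 : ℝ)).fun_div (i.fun_pow 4) (pow_ne_zero 4 h0)) ?_
    simp only [iv]; field_simp; ring

theorem main (G : ℝ → ℝ) (p q b c : ℝ) (hb : 0 < b) (hc : 0 < c) (hp : 0 ≤ p) (hp' : p ≤ 1)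
    (hq : 0.4 ≤ q) (hc' : c ≤ 0.06)
    (h0 : ∀ x, -1 < x → G x - G (x + 1) = p * (ph b 0 (x + 1 / 2) - ph b 0 (x + 3 / 2)) +
      q * (ph c 0 (x + 1 / 2) - ph c 0 (x + 3 / 2)) + iv 0 (x + 1)) :
    ¬ CompletelyMonotonic G := by
  rintro ⟨hs, hn⟩
  have dG : ∀ (k : ℕ) x, -1 < x → HasDerivAt (iteratedDeriv k G) (iteratedDeriv (k + 1) G x) x := by
    intro k x hx
    have h1 : DifferentiableOn ℝ (iteratedDerivWithin k G (Ioi (-1))) (Ioi (-1)) :=
      hs.differentiableOn_iteratedDerivWithin (by exact_mod_cast ENat.natCast_lt_top k)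
        (uniqueDiffOn_Ioi _)
    have h2 : DifferentiableOn ℝ (iteratedDeriv k G) (Ioi (-1)) :=
      h1.congr fun y hy => (iteratedDerivWithin_of_isOpen isOpen_Ioi hy).symm
    rw [iteratedDeriv_succ]
    exact (h2.differentiableAt (Ioi_mem_nhds hx)).hasDerivAt
  have hk : ∀ k ≤ 4, ∀ x, -1 < x → iteratedDeriv k G x - iteratedDeriv k G (x + 1) =
      p * (ph b k (x + 1 / 2) - ph b k (x + 3 / 2)) +
      q * (ph c k (x + 1 / 2) - ph c k (x + 3 / 2)) + iv k (x + 1) := by
    intro k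
    induction k with
    | zero => exact fun _ => h0
    | succ k ih =>
      intro hk x hx
      have a1 := (dG k x hx).fun_sub ((dG k (x + 1) (by linarith)).comp_add_const x 1)
      have s : ∀ b : ℝ, 0 < b → ∀ t, HasDerivAt (fun x => ph b k (x + t)) (ph b (k + 1) (x + t)) x :=
        fun b hb t => (ph_der b _ hb k hk).comp_add_const x t
      have a2 := ((((s b hb (1 / 2)).fun_sub (s b hb (3 / 2))).const_mul p).fun_add
        (((s c hc (1 / 2)).fun_sub (s c hc (3 / 2))).const_mul q)).fun_add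
        ((iv_der (x + 1) (by linarith) k hk).comp_add_const x 1)
      exact a1.unique (a2.congr_of_eventuallyEq (by
        filter_upwards [Ioi_mem_nhds hx] with y hy using ih (by omega) y hy))
  have anti : AntitoneOn (iteratedDeriv 4 G) (Ioi (-1)) :=
    antitoneOn_of_deriv_nonpos (convex_Ioi _)
      (fun x hx => (dG 4 x hx).continuousAt.continuousWithinAt)
      (fun x hx => (dG 4 x (interior_subset hx)).differentiableAt.differentiableWithinAt)
      fun x hx => by
        rw [(dG 4 x (interior_subset hx)).deriv]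
        have := hn 5 x (interior_subset hx)
        norm_num at this ⊢
        exact this
  have e1 := anti (a := -1 / 2) (b := -1 / 2 + 1) (by norm_num) (by norm_num) (by norm_num)
  have e2 := hk 4 le_rfl (-1 / 2) (by norm_num)
  have z : ∀ b : ℝ, 0 < b → ph b 4 (-1 / 2 + 1 / 2) = -12 / b ^ 2 := fun b hb => by
    simp only [ph]; field_simp; ring
  have o : ∀ b : ℝ, 0 < b → -12 ≤ ph b 4 (-1 / 2 + 3 / 2) := fun b hb => by
    simp only [ph]
    rw [le_div_iff₀ (by positivity)]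
    norm_num
    nlinarith [pow_pos hb 2, pow_pos hb 3, pow_pos hb 4]
  have w : iv 4 (-1 / 2 + 1) = 768 := by simp only [iv]; norm_num
  rw [z b hb, z c hc, w] at e2
  have b1 : -12 / b ^ 2 ≤ 0 := div_nonpos_of_nonpos_of_nonneg (by norm_num) (by positivity)
  have c1 : -12 / c ^ 2 ≤ -3000 := by
    rw [div_le_iff₀ (by positivity)]; nlinarith
  have := o b hb
  have := o c hc
  nlinarith

theorem result : ¬ CompletelyMonotonic fun x => L x a₁ - psi (x + 1) := by
  have s1 : 14.3 < √205 := Real.lt_sqrt_of_sq_lt (by norm_num)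
  have s2 : √205 < 14.4 := (Real.sqrt_lt' (by norm_num)).2 (by norm_num)
  have h1 : 0.78 < a₁ := by rw [a₁]; linarith
  have h2 : a₁ < 0.8 := by rw [a₁]; linarith
  generalize a₁ = a at *
  have a0 : 0 < a := by linarith
  have e : (15 * a - 1) / (45 * a) - 1 / 4 = (15 * a - 4) / (180 * a) := by field_simp; ring
  refine main _ (1 / (90 * a ^ 2 + 2)) (45 * a ^ 2 / (90 * a ^ 2 + 2)) ((3 * a + 1) / 3 - 1 / 4)
    ((15 * a - 1) / (45 * a) - 1 / 4) (by linarith) (by rw [e]; apply div_pos <;> linarith)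
    (by positivity) (by rw [div_le_one (by positivity)]; nlinarith)
    (by rw [le_div_iff₀ (by positivity)]; nlinarith)
    (by rw [e, div_le_iff₀ (by positivity)]; linarith) fun x hx => ?_
  rw [psi_succ (x + 1) (by linarith)]
  simp only [L, ph, iv]
  have t : ∀ c : ℝ, (x + 1 / 2) ^ 2 + (c - 1 / 4) = x ^ 2 + x + c := fun c => by ring
  have t' : ∀ c : ℝ, (x + 3 / 2) ^ 2 + (c - 1 / 4) = (x + 1) ^ 2 + (x + 1) + c := fun c => by ring
  rw [t, t, t', t']
  ring

end Pool.Agent.Results.MP_d2a7e5_an.NotCM
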